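import Pool.Agent.Helper11_COV.Stmt

/-!
Squad COV, module AVR: the density has mean one, is bounded, and the boxes have the right measure.
-/

set_option autoImplicit false

namespace Pool.Agent.COV.H93

open Finset Classical

lemma be_update (X : Sys) (k : ℕ) (x : ℕ → ℕ) (y : ℕ) :
    be X k (Function.update x k y) = be X k x := by
  unfold be
  simp only [Function.update_idem]

lemma card_box (q N : ℕ) (r : ℤ) (hq : 0 < q) (hqN : q ∣ N) :
    ((range N).filter (fun y : ℕ => (y : ℤ) ≡ r [ZMOD (q : ℤ)])).card * q = N := by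
  have hq' : (0 : ℤ) < q := by exact_mod_cast hq
  obtain ⟨r', hr'⟩ : ∃ r' : ℕ, (r' : ℤ) = r % q :=
    ⟨(r % q).toNat, Int.toNat_of_nonneg (Int.emod_nonneg _ hq'.ne')⟩
  have hiff : ∀ y : ℕ, ((y : ℤ) ≡ r [ZMOD (q : ℤ)]) ↔ y ≡ r' [MOD q] := by
    intro y
    rw [← Int.natCast_modEq_iff, hr']
    have h : r % q ≡ r [ZMOD (q : ℤ)] := Int.mod_modEq _ _
    exact ⟨fun h1 => h1.trans h.symm, fun h1 => h1.trans h⟩
  have h1 : (range N).filter (fun y : ℕ => (y : ℤ) ≡ r [ZMOD (q : ℤ)]) =
      (range N).filter (fun y : ℕ => y ≡ r' [MOD q]) := by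
    refine Finset.filter_congr fun y _ => hiff y
  have h2 := Nat.count_modEq_card N hq r'
  rw [Nat.count_eq_card_filter_range, Nat.mod_eq_zero_of_dvd hqN, if_neg (Nat.not_lt_zero _),
    add_zero] at h2
  rw [h1]
  have h3 : ((range N).filter (fun y : ℕ => y ≡ r' [MOD q])).card = N / q := by
    rw [← h2]
  rw [h3, Nat.div_mul_cancel hqN]

theorem avr (hR : RhoStmt) : AvrStmt := by
  intro X hδ
  have key : ∀ n x, n.Prime →
      (∀ y : ℕ, 0 ≤ rho X n (Function.update x n y) ∧
        rho X n (Function.update x n y) ≤ 1 / (1 - X.δ n)) ∧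
      (∑ y ∈ range (n ^ X.c n), rho X n (Function.update x n y)) / ((n ^ X.c n : ℕ) : ℝ) = 1 ∧
      (∑ y ∈ range (n ^ X.c n), rho X n (Function.update x n y) *
          (cn X n (Function.update x n y) : ℝ)) / ((n ^ X.c n : ℕ) : ℝ) ≤
        max 0 ((∑ y ∈ range (n ^ X.c n), (cn X n (Function.update x n y) : ℝ)) /
          ((n ^ X.c n : ℕ) : ℝ) - X.δ n) / (1 - X.δ n) := by
    intro n x hn
    refine hR (n ^ X.c n) (fun y => cn X n (Function.update x n y)) (X.δ n) (be X n x)
      (fun y => rho X n (Function.update x n y)) (pow_pos hn.pos _) (hδ n).1 (hδ n).2 rfl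
      fun y => ?_
    simp only [rho, be_update]
  refine ⟨fun n x hn => ?_, fun n x hn => ?_, fun n x hn => ?_, fun p e m r hp hem => ?_⟩
  · exact (key n x hn).2.1
  · have h := (key n x hn).1 (x n)
    rw [Function.update_eq_self] at h
    exact h
  · exact (key n x hn).2.2
  · have h := card_box (p ^ e) (p ^ m) r (pow_pos hp.pos _) (pow_dvd_pow p hem)
    exact_mod_cast h

end Pool.Agent.COV.H93
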