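import Pool.Agent.Helper11_COV.Stmt

/-!
Squad COV, module BLK: the block loop is sound.
-/

set_option autoImplicit false

namespace Pool.Agent.COV.H93

open Finset Classical

lemma sq_eq {α : Type} (n : ℕ) (f : ℕ → α) : sq n f = f n := by
  cases n <;> rfl

/-- one number of the sieve -/
lemma one_sound (hI : BkiStmt) (hP : BkpStmt) (c : ℕ → ℕ) (C PR z t n lo hi : ℕ) (m : ML)
    (s0 s1 M1 M2 T : ℕ) (K : ℕ → ℕ → ℕ → ℕ → ℕ → Bool) (hPR : PrOk PR lo hi) (hlo : lo ≤ n)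
    (hhi : n < hi) (h6 : n % 6 = 1 ∨ n % 6 = 5) (hZ : n.Prime → ZOk c z n) (h2 : 2 * t + z ≤ n)
    (htC : t ≤ C) (hInv : InvB c C n m s0 s1 M1 M2 T)
    (h : one PR z t (phi t 1 m - phi t 2 m) (phi t 2 m - phi t 4 m) (phi t 4 m) n s0 s1 M1 M2 T K
      = true) :
    ∃ s0' s1' M1' M2' T', InvB c C (n + 1) m s0' s1' M1' M2' T' ∧
      K s0' s1' M1' M2' T' = true := by
  unfold one at h
  by_cases hg : Nat.gcd n PR = 1
  · have hn : n.Prime := (hPR n hlo hhi h6).mp hg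
    have hb : Nat.beq (Nat.gcd n PR) 1 = true := by
      rw [hg]
      rfl
    rw [hb, cond_true] at h
    simp only [sq_eq] at h
    exact ⟨_, _, _, _, _, hP c C n z t m s0 s1 M1 M2 T hn (hZ hn) h2 htC hInv, h⟩
  · have hn : ¬ n.Prime := fun h' => hg ((hPR n hlo hhi h6).mpr h')
    have hb : Nat.beq (Nat.gcd n PR) 1 = false := by
      rw [Bool.eq_false_iff]
      intro h'
      exact hg (Nat.eq_of_beq_eq_true h')
    rw [hb, cond_false] at h
    exact ⟨_, _, _, _, _, hI.2.1 c C n m s0 s1 M1 M2 T hn hInv, h⟩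

theorem blkS (hI : BkiStmt) (hP : BkpStmt) : BlkStmt := by
  intro c C PR z t f
  induction f with
  | zero =>
    intro n lo hi m s0 s1 M1 M2 T K _ _ _ _ _ _ _ _ hInv h
    exact ⟨s0, s1, M1, M2, T, hInv, h⟩
  | succ f ih =>
    intro n lo hi m s0 s1 M1 M2 T K hPR hlo hhi h6 h5 hZ h2 htC hInv h
    rw [blk] at h
    obtain ⟨s0', s1', M1', M2', T', hI1, h'⟩ := one_sound hI hP c C PR z t n lo hi m s0 s1 M1 M2 T
      _ hPR hlo (by omega) (Or.inl h6) (hZ n (le_refl _)) h2 htC hInv h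
    have np : ∀ k d : ℕ, 1 < d → d < k → k % d = 0 → ¬ k.Prime := by
      intro k d hd hdk hmod hp
      have := (Nat.dvd_prime hp).mp (Nat.dvd_of_mod_eq_zero hmod)
      omega
    have hI2 := hI.2.1 c C (n + 1) m s0' s1' M1' M2' T' (np (n + 1) 2 (by omega) (by omega)
      (by omega)) hI1
    have hI3 := hI.2.1 c C (n + 1 + 1) m s0' s1' M1' M2' T' (np (n + 1 + 1) 3 (by omega) (by omega)
      (by omega)) hI2
    have hI4 := hI.2.1 c C (n + 1 + 1 + 1) m s0' s1' M1' M2' T' (np (n + 1 + 1 + 1) 2 (by omega)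
      (by omega) (by omega)) hI3
    have e4 : n + 1 + 1 + 1 + 1 = n + 4 := by omega
    rw [e4] at hI4
    rw [sq_eq] at h'
    obtain ⟨s0'', s1'', M1'', M2'', T'', hI5, h''⟩ := one_sound hI hP c C PR z t (n + 4) lo hi m
      s0' s1' M1' M2' T' _ hPR (by omega) (by omega) (Or.inr (by omega)) (hZ (n + 4) (by omega))
      (by omega) htC hI4 h'
    have hI6 := hI.2.1 c C (n + 4 + 1) m s0'' s1'' M1'' M2'' T'' (np (n + 4 + 1) 2 (by omega)
      (by omega) (by omega)) hI5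
    have e6 : n + 4 + 1 + 1 = n + 6 := by omega
    rw [e6] at hI6
    rw [sq_eq] at h''
    obtain ⟨r0, r1, R1, R2, R3, hI7, h7⟩ := ih (n + 6) lo hi m s0'' s1'' M1'' M2'' T'' K hPR
      (by omega) (by omega) (by omega) (by omega) (fun q hq => hZ q (by omega)) (by omega) htC
      hI6 h''
    have e7 : n + 6 + 6 * f = n + 6 * (f + 1) := by ring
    rw [e7] at hI7 h7
    exact ⟨r0, r1, R1, R2, R3, hI7, h7⟩

end Pool.Agent.COV.H93
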