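import Pool.Agent.Helper93_COV.Vvd

/-!
Squad COV, module DDP: properties of the model expectation.
-/

set_option autoImplicit false

namespace Pool.Agent.COV.H93

open Finset Classical

lemma DD_lin (c : ℕ → ℕ) (ν : ℕ → ℝ) (u w : ℝ) (n : ℕ) : ∀ f g : ℕ → ℝ,
    DD c ν n (fun x => u * f x + w * g x) = u * DD c ν n f + w * DD c ν n g := by
  induction n with
  | zero => intro f g; simp only [DD]
  | succ n ih =>
    intro f g
    by_cases hn : n.Prime
    · simp only [DD, if_pos hn]
      rw [ih f g]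
      have h : ∀ j : ℕ, ν n / (n : ℝ) ^ (j + 1) *
          (DD c ν n (fun x => u * f ((j + 2) * x) + w * g ((j + 2) * x)) -
            DD c ν n (fun x => u * f ((j + 1) * x) + w * g ((j + 1) * x))) =
          u * (ν n / (n : ℝ) ^ (j + 1) * (DD c ν n (fun x => f ((j + 2) * x)) -
            DD c ν n (fun x => f ((j + 1) * x)))) +
          w * (ν n / (n : ℝ) ^ (j + 1) * (DD c ν n (fun x => g ((j + 2) * x)) -
            DD c ν n (fun x => g ((j + 1) * x)))) := by
        intro j
        rw [ih (fun x => f ((j + 2) * x)) (fun x => g ((j + 2) * x)),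
          ih (fun x => f ((j + 1) * x)) (fun x => g ((j + 1) * x))]
        ring
      rw [Finset.sum_congr rfl fun j _ => h j, Finset.sum_add_distrib, ← Finset.mul_sum,
        ← Finset.mul_sum]
      ring
    · simp only [DD, if_neg hn]
      exact ih f g

lemma DD_mono (c : ℕ → ℕ) (ν : ℕ → ℝ) (n : ℕ) : ∀ f g : ℕ → ℝ,
    (∀ p < n, p.Prime → 0 ≤ ν p ∧ ν p ≤ p) → (∀ x, 1 ≤ x → f x ≤ g x) →
    DD c ν n f ≤ DD c ν n g := by
  induction n with
  | zero =>
    intro f g _ hfg
    simp only [DD]
    exact hfg 1 (le_refl _)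
  | succ n ih =>
    intro f g hν hfg
    have hν' : ∀ p < n, p.Prime → 0 ≤ ν p ∧ ν p ≤ p := fun p hp => hν p (by omega)
    by_cases hn : n.Prime
    · simp only [DD, if_pos hn]
      obtain ⟨w0, w1, w2⟩ := wseq n (ν n) hn.one_lt (hν n (by omega) hn).1 (hν n (by omega) hn).2
      have h := abel_mono (fun j => ν n / (n : ℝ) ^ (j + 1))
        (fun j => DD c ν n (fun x => f ((j + 1) * x)))
        (fun j => DD c ν n (fun x => g ((j + 1) * x))) w0 w1 w2
        (fun j => ih _ _ hν' (fun x hx => hfg _ (Nat.mul_pos (by omega) hx))) (c n)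
      simp only [zero_add, one_mul] at h
      exact h
    · simp only [DD, if_neg hn]
      exact ih f g hν' hfg

lemma DD_const (c : ℕ → ℕ) (ν : ℕ → ℝ) (n : ℕ) (r : ℝ) : DD c ν n (fun _ => r) = r := by
  induction n with
  | zero => simp only [DD]
  | succ n ih =>
    by_cases hn : n.Prime
    · simp only [DD, if_pos hn, ih, sub_self, mul_zero, Finset.sum_const_zero, add_zero]
    · simp only [DD, if_neg hn, ih]

lemma DD_congr (c : ℕ → ℕ) (ν ν' : ℕ → ℝ) (n : ℕ) : ∀ f : ℕ → ℝ,
    (∀ p < n, p.Prime → ν p = ν' p) → DD c ν n f = DD c ν' n f := by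
  induction n with
  | zero => intro f _; simp only [DD]
  | succ n ih =>
    intro f hν
    have hν' : ∀ p < n, p.Prime → ν p = ν' p := fun p hp => hν p (by omega)
    by_cases hn : n.Prime
    · simp only [DD, if_pos hn]
      rw [ih f hν', hν n (by omega) hn]
      congr 1
      refine Finset.sum_congr rfl fun j _ => ?_
      rw [ih _ hν', ih _ hν']
    · simp only [DD, if_neg hn]
      exact ih f hν'

theorem ddp : DdpStmt :=
  ⟨fun c ν n f g u w => DD_lin c ν u w n f g, fun c ν n f g => DD_mono c ν n f g,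
    fun c ν n r => DD_const c ν n r, fun c ν ν' n f => DD_congr c ν ν' n f⟩

end Pool.Agent.COV.H93
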