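import Pool.Agent.Helper11_COV.Stmt

/-!
Squad COV, module ONE: the one-coordinate comparison.
-/

set_option autoImplicit false

namespace Pool.Agent.COV.H93

open Finset Classical

/-- the chord inequality for `x ↦ max 0 (x - t)` -/
lemma chord (t T T' : ℝ) (hT : T ≤ T') : ∃ θ : ℝ, 0 ≤ θ ∧
    θ * (T' - T) = max 0 (T' - t) - max 0 (T - t) ∧
    ∀ a a' : ℝ, a ≤ a' → a ≤ T → a' ≤ T' → a' - a ≤ T' - T →
      max 0 (a' - t) - max 0 (a - t) ≤ θ * (a' - a) := by
  rcases eq_or_lt_of_le hT with h | h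
  · refine ⟨0, le_refl _, by rw [h]; ring, fun a a' h1 _ _ h4 => ?_⟩
    have : a' = a := by linarith
    rw [this]
    simp
  · have hd : 0 < T' - T := by linarith
    have hmono : max 0 (T - t) ≤ max 0 (T' - t) := max_le_max (le_refl _) (by linarith)
    refine ⟨(max 0 (T' - t) - max 0 (T - t)) / (T' - T), div_nonneg (by linarith) hd.le,
      by field_simp, fun a a' h1 h2 h3 _ => ?_⟩
    have hθ : 0 ≤ (max 0 (T' - t) - max 0 (T - t)) / (T' - T) :=
      div_nonneg (by linarith) hd.le
    rcases le_or_gt a' t with h5 | h5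
    · rw [max_eq_left (by linarith), max_eq_left (by linarith), sub_zero]
      exact mul_nonneg hθ (by linarith)
    · rw [max_eq_right (show (0 : ℝ) ≤ a' - t by linarith)]
      rcases le_or_gt t T with h6 | h6
      · have e : (max 0 (T' - t) - max 0 (T - t)) / (T' - T) = 1 := by
          rw [max_eq_right (by linarith), max_eq_right (by linarith)]
          rw [div_eq_one_iff_eq hd.ne']
          ring
        rw [e]
        have := le_max_right 0 (a - t)
        linarith
      · rw [max_eq_left (show a - t ≤ 0 by linarith), max_eq_right (show 0 ≤ T' - t by linarith),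
          max_eq_left (show T - t ≤ 0 by linarith), sub_zero, sub_zero, div_mul_eq_mul_div,
          le_div_iff₀ hd]
        nlinarith [mul_nonneg (sub_nonneg.mpr h3) (sub_pos.mpr h6).le,
          mul_nonneg (show 0 ≤ T' - t by linarith) (sub_nonneg.mpr h2)]

theorem one : OneStmt := by
  intro I w e b M G q ν t ρ hM hq hw he hb hcard hρ hmean
  have hMr : (0 : ℝ) < M := by exact_mod_cast hM
  have hν : 0 ≤ ν := le_trans (hρ 0).1 (hρ 0).2
  -- the quantities
  obtain ⟨T, hT⟩ : ∃ T : ℕ → ℝ, ∀ j, T j = ∑ d ∈ I.filter (fun d => e d ≤ j), w d :=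
    ⟨fun j => ∑ d ∈ I.filter (fun d => e d ≤ j), w d, fun _ => rfl⟩
  obtain ⟨A, hA⟩ : ∃ A : ℕ → ℕ → ℝ, ∀ j y,
      A j y = ∑ d ∈ I.filter (fun d => e d ≤ j), if b d y then w d else 0 :=
    ⟨fun j y => ∑ d ∈ I.filter (fun d => e d ≤ j), if b d y then w d else 0, fun _ _ => rfl⟩
  have hAG : ∀ y, ∑ d ∈ I.filter (fun d => b d y), w d = A G y := by
    intro y
    rw [hA, Finset.filter_true_of_mem (fun d hd => he d hd), Finset.sum_filter]
  have hA0 : ∀ y, A 0 y = T 0 := by
    intro y
    rw [hA, hT]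
    refine Finset.sum_congr rfl fun d hd => ?_
    rw [Finset.mem_filter] at hd
    rw [if_pos (hb d hd.1 (by omega) y)]
  have hsplit : ∀ j, I.filter (fun d => e d ≤ j + 1) =
      I.filter (fun d => e d ≤ j) ∪ I.filter (fun d => e d = j + 1) := by
    intro j
    ext d
    simp only [Finset.mem_filter, Finset.mem_union]
    constructor
    · rintro ⟨h1, h2⟩
      rcases Nat.lt_or_ge (e d) (j + 1) with h | h
      · exact Or.inl ⟨h1, by omega⟩
      · exact Or.inr ⟨h1, by omega⟩
    · rintro (⟨h1, h2⟩ | ⟨h1, h2⟩)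
      · exact ⟨h1, by omega⟩
      · exact ⟨h1, by omega⟩
  have hdisj : ∀ j, Disjoint (I.filter (fun d => e d ≤ j)) (I.filter (fun d => e d = j + 1)) := by
    intro j
    rw [Finset.disjoint_left]
    intro d h1 h2
    rw [Finset.mem_filter] at h1 h2
    omega
  have hTs : ∀ j, T (j + 1) - T j = ∑ d ∈ I.filter (fun d => e d = j + 1), w d := by
    intro j
    rw [hT, hT, hsplit, Finset.sum_union (hdisj j)]
    ring
  have hAs : ∀ j y, A (j + 1) y - A j y =
      ∑ d ∈ I.filter (fun d => e d = j + 1), if b d y then w d else 0 := by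
    intro j y
    rw [hA, hA, hsplit, Finset.sum_union (hdisj j)]
    ring
  have hite : ∀ d ∈ I, ∀ y, 0 ≤ (if b d y then w d else 0) ∧ (if b d y then w d else 0) ≤ w d := by
    intro d hd y
    by_cases h : b d y
    · rw [if_pos h]
      exact ⟨hw d hd, le_refl _⟩
    · rw [if_neg h]
      exact ⟨le_refl _, hw d hd⟩
  have hTm : ∀ j, T j ≤ T (j + 1) := by
    intro j
    have h := hTs j
    have h2 : 0 ≤ ∑ d ∈ I.filter (fun d => e d = j + 1), w d :=
      Finset.sum_nonneg fun d hd => hw d (Finset.mem_filter.mp hd).1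
    linarith
  have hAm : ∀ j y, A j y ≤ A (j + 1) y := by
    intro j y
    have h := hAs j y
    have h2 : 0 ≤ ∑ d ∈ I.filter (fun d => e d = j + 1), (if b d y then w d else 0) :=
      Finset.sum_nonneg fun d hd => (hite d (Finset.mem_filter.mp hd).1 y).1
    linarith
  have hAT : ∀ j y, A j y ≤ T j := by
    intro j y
    rw [hA, hT]
    exact Finset.sum_le_sum fun d hd => (hite d (Finset.mem_filter.mp hd).1 y).2
  have hAdT : ∀ j y, A (j + 1) y - A j y ≤ T (j + 1) - T j := by
    intro j y
    rw [hAs, hTs]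
    exact Finset.sum_le_sum fun d hd => (hite d (Finset.mem_filter.mp hd).1 y).2
  choose θ hθ0 hθT hθA using fun j => chord t (T j) (T (j + 1)) (hTm j)
  -- pointwise bound
  have hpt : ∀ y (n : ℕ), max 0 (A n y - t) ≤
      max 0 (T 0 - t) + ∑ j ∈ range n, θ j * (A (j + 1) y - A j y) := by
    intro y n
    induction n with
    | zero => rw [hA0]; simp
    | succ n ih =>
      rw [Finset.sum_range_succ]
      have h := hθA n (A n y) (A (n + 1) y) (hAm n y) (hAT n y) (hAT (n + 1) y) (hAdT n y)
      linarith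
  -- mean of one box
  have hbox : ∀ d ∈ I, (∑ y ∈ range M, ρ y * (if b d y then w d else 0)) / (M : ℝ) ≤
      ν / q ^ (e d) * w d := by
    intro d hd
    have h1 : ∑ y ∈ range M, ρ y * (if b d y then w d else 0) ≤
        ∑ y ∈ range M, (if b d y then ν * w d else 0) := by
      refine Finset.sum_le_sum fun y _ => ?_
      by_cases h : b d y
      · rw [if_pos h, if_pos h]
        exact mul_le_mul_of_nonneg_right (hρ y).2 (hw d hd)
      · rw [if_neg h, if_neg h, mul_zero]
    have h2 : ∑ y ∈ range M, (if b d y then ν * w d else 0) =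
        (((range M).filter (fun y => b d y)).card : ℝ) * (ν * w d) := by
      rw [← Finset.sum_filter, Finset.sum_const, nsmul_eq_mul]
    have h3 := hcard d hd
    have hqe : 0 < q ^ (e d) := pow_pos hq _
    rw [div_le_iff₀ hMr, div_mul_eq_mul_div, div_mul_eq_mul_div, le_div_iff₀ hqe]
    rw [h2] at h1
    have hνw : 0 ≤ ν * w d := mul_nonneg hν (hw d hd)
    calc (∑ y ∈ range M, ρ y * (if b d y then w d else 0)) * q ^ e d
        ≤ ((((range M).filter (fun y => b d y)).card : ℝ) * (ν * w d)) * q ^ e d :=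
          mul_le_mul_of_nonneg_right h1 hqe.le
      _ = ((((range M).filter (fun y => b d y)).card : ℝ) * q ^ e d) * (ν * w d) := by ring
      _ ≤ (M : ℝ) * (ν * w d) := mul_le_mul_of_nonneg_right h3 hνw
      _ = ν * w d * M := by ring
  -- mean of the increments
  have hinc : ∀ j, (∑ y ∈ range M, ρ y * (A (j + 1) y - A j y)) / (M : ℝ) ≤
      ν / q ^ (j + 1) * (T (j + 1) - T j) := by
    intro j
    have h1 : (∑ y ∈ range M, ρ y * (A (j + 1) y - A j y)) / (M : ℝ) =
        ∑ d ∈ I.filter (fun d => e d = j + 1),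
          (∑ y ∈ range M, ρ y * (if b d y then w d else 0)) / (M : ℝ) := by
      rw [← Finset.sum_div]
      congr 1
      rw [Finset.sum_comm]
      refine Finset.sum_congr rfl fun y _ => ?_
      rw [hAs, Finset.mul_sum]
    rw [h1, hTs, Finset.mul_sum]
    refine Finset.sum_le_sum fun d hd => ?_
    rw [Finset.mem_filter] at hd
    have h := hbox d hd.1
    rw [hd.2] at h
    exact h
  -- conclusion
  have hL : (∑ y ∈ range M, ρ y * max 0 ((∑ d ∈ I.filter (fun d => b d y), w d) - t)) / (M : ℝ) ≤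
      max 0 (T 0 - t) + ∑ j ∈ range G, θ j *
        ((∑ y ∈ range M, ρ y * (A (j + 1) y - A j y)) / (M : ℝ)) := by
    have h1 : ∑ y ∈ range M, ρ y * max 0 ((∑ d ∈ I.filter (fun d => b d y), w d) - t) ≤
        ∑ y ∈ range M, ρ y * (max 0 (T 0 - t) + ∑ j ∈ range G, θ j * (A (j + 1) y - A j y)) := by
      refine Finset.sum_le_sum fun y _ => ?_
      rw [hAG]
      exact mul_le_mul_of_nonneg_left (hpt y G) (hρ y).1
    have h2 : (∑ y ∈ range M, ρ y * (max 0 (T 0 - t) +
        ∑ j ∈ range G, θ j * (A (j + 1) y - A j y))) / (M : ℝ) =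
        max 0 (T 0 - t) + ∑ j ∈ range G, θ j *
        ((∑ y ∈ range M, ρ y * (A (j + 1) y - A j y)) / (M : ℝ)) := by
      have h3 : ∑ y ∈ range M, ρ y * (max 0 (T 0 - t) +
          ∑ j ∈ range G, θ j * (A (j + 1) y - A j y)) =
          (∑ y ∈ range M, ρ y) * max 0 (T 0 - t) +
            ∑ j ∈ range G, θ j * ∑ y ∈ range M, ρ y * (A (j + 1) y - A j y) := by
        have h4 : ∀ j ∈ range G, θ j * ∑ y ∈ range M, ρ y * (A (j + 1) y - A j y) =
            ∑ y ∈ range M, ρ y * (θ j * (A (j + 1) y - A j y)) := by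
          intro j _
          rw [Finset.mul_sum]
          refine Finset.sum_congr rfl fun y _ => ?_
          ring
        rw [Finset.sum_congr rfl h4, Finset.sum_comm, Finset.sum_mul, ← Finset.sum_add_distrib]
        refine Finset.sum_congr rfl fun y _ => ?_
        rw [mul_add, Finset.mul_sum]
      rw [h3, add_div, mul_div_right_comm, hmean, one_mul, Finset.sum_div]
      congr 1
      refine Finset.sum_congr rfl fun j _ => ?_
      rw [mul_div_assoc]
    rw [← h2]
    exact div_le_div_of_nonneg_right h1 hMr.le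
  refine le_trans hL ?_
  simp only [← hT]
  refine add_le_add (le_refl _) (Finset.sum_le_sum fun j _ => ?_)
  calc θ j * ((∑ y ∈ range M, ρ y * (A (j + 1) y - A j y)) / (M : ℝ))
      ≤ θ j * (ν / q ^ (j + 1) * (T (j + 1) - T j)) :=
        mul_le_mul_of_nonneg_left (hinc j) (hθ0 j)
    _ = ν / q ^ (j + 1) * (θ j * (T (j + 1) - T j)) := by ring
    _ = ν / q ^ (j + 1) * (max 0 (T (j + 1) - t) - max 0 (T j - t)) := by rw [hθT]

end Pool.Agent.COV.H93
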