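import Pool.Agent.Helper11_COV.Stmt

/-!
Squad COV, module POP: properties of the distorted expectation.
-/

set_option autoImplicit false

namespace Pool.Agent.COV.H93

open Finset Classical

lemma av_lin (c : ℕ → ℕ) (p : ℕ) (r F G : (ℕ → ℕ) → ℝ) (u w : ℝ) (x : ℕ → ℕ) :
    av c p (fun y => r y * (u * F y + w * G y)) x =
      u * av c p (fun y => r y * F y) x + w * av c p (fun y => r y * G y) x := by
  unfold av
  rw [← mul_div_assoc, ← mul_div_assoc, ← add_div, Finset.mul_sum, Finset.mul_sum,
    ← Finset.sum_add_distrib]
  congr 1
  refine Finset.sum_congr rfl fun y _ => ?_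
  ring

lemma av_mono (c : ℕ → ℕ) (p : ℕ) (F G : (ℕ → ℕ) → ℝ) (x : ℕ → ℕ) (h : ∀ y, F y ≤ G y) :
    av c p F x ≤ av c p G x := by
  unfold av
  exact div_le_div_of_nonneg_right (Finset.sum_le_sum fun y _ => h _) (by positivity)

theorem pop (hA : AvrStmt) : PopStmt := by
  intro X hδ
  obtain ⟨a1, a2, -, -⟩ := hA X hδ
  have a1' : ∀ n x, n.Prime → ∀ r : ℝ, av X.c n (fun y => rho X n y * r) x = r := by
    intro n x hn r
    have h := a1 n x hn
    unfold av at h ⊢
    rw [← Finset.sum_mul, mul_div_right_comm, h, one_mul]
  refine ⟨fun n => ?_, fun n => ?_, fun n => ?_, fun k n F hkn hF => ?_⟩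
  · induction n with
    | zero => intro F G x h; exact h x
    | succ n ih =>
      intro F G x h
      by_cases hn : n.Prime
      · simp only [PO, if_pos hn]
        refine ih _ _ x fun y => av_mono _ _ _ _ _ fun z => ?_
        exact mul_le_mul_of_nonneg_left (h z) (a2 n z hn).1
      · simp only [PO, if_neg hn]
        exact ih _ _ x h
  · induction n with
    | zero => intro F G u w x; simp only [PO]
    | succ n ih =>
      intro F G u w x
      by_cases hn : n.Prime
      · simp only [PO, if_pos hn]
        simp only [av_lin]
        exact ih _ _ u w x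
      · simp only [PO, if_neg hn]
        exact ih _ _ u w x
  · induction n with
    | zero => intro r x; simp only [PO]
    | succ n ih =>
      intro r x
      by_cases hn : n.Prime
      · simp only [PO, if_pos hn, a1' n _ hn]
        exact ih r x
      · simp only [PO, if_neg hn]
        exact ih r x
  · induction n, hkn using Nat.le_induction with
    | base => intro x; rfl
    | succ n hkn ih =>
      intro x
      rw [← ih x]
      by_cases hn : n.Prime
      · simp only [PO, if_pos hn]
        congr 1
        funext z
        have h : av X.c n (fun y => rho X n y * F y) z = av X.c n (fun y => rho X n y * F z) z := by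
          unfold av
          congr 1
          refine Finset.sum_congr rfl fun y _ => ?_
          simp only [hF z y n hkn]
        rw [h, a1' n z hn]
      · simp only [PO, if_neg hn]

end Pool.Agent.COV.H93
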