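import Pool.Agent.Helper11_COV.Stmt

/-!
Squad COV, module RHO: the one-dimensional density.
-/

set_option autoImplicit false

namespace Pool.Agent.COV.H93

open Finset Classical

theorem rhoS : RhoStmt := by
  intro M f δ β ρ hM hδ0 hδ1 hβ hρ
  have hMr : (0 : ℝ) < M := by exact_mod_cast hM
  obtain ⟨c1, hc1⟩ : ∃ c1 : ℝ, c1 = (((range M).filter (fun y => f y ≠ 0)).card : ℝ) := ⟨_, rfl⟩
  obtain ⟨c0, hc0⟩ : ∃ c0 : ℝ, c0 = (((range M).filter (fun y => f y = 0)).card : ℝ) := ⟨_, rfl⟩
  have hsum : c0 + c1 = M := by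
    rw [hc0, hc1]
    have h := Finset.card_filter_add_card_filter_not (s := range M) (fun y => f y = 0)
    rw [Finset.card_range] at h
    exact_mod_cast h
  have hc1n : 0 ≤ c1 := by rw [hc1]; positivity
  have hc0n : 0 ≤ c0 := by rw [hc0]; positivity
  rw [← hc1] at hβ
  have hc1β : c1 = β * M := by
    rw [hβ]
    field_simp
  have hc0β : c0 = (1 - β) * M := by linarith
  have hβ0 : 0 ≤ β := by rw [hβ]; positivity
  have hβ1 : β ≤ 1 := by
    rw [hβ, div_le_one hMr]
    linarith
  have hsite : ∀ a b : ℝ, ∑ y ∈ range M, (if f y = 0 then a else b) = c0 * a + c1 * b := by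
    intro a b
    rw [Finset.sum_ite, Finset.sum_const, Finset.sum_const, nsmul_eq_mul, nsmul_eq_mul, hc0, hc1]
  have hsf : ∀ a b : ℝ, ∑ y ∈ range M, (if f y = 0 then a else b) * (f y : ℝ)
      = b * ∑ y ∈ range M, (f y : ℝ) := by
    intro a b
    rw [Finset.mul_sum]
    refine Finset.sum_congr rfl fun y _ => ?_
    by_cases h : f y = 0
    · rw [if_pos h, h]
      simp
    · rw [if_neg h]
  have hS : c1 ≤ ∑ y ∈ range M, (f y : ℝ) := by
    have h1 : c1 = ∑ y ∈ range M, (if f y = 0 then (0 : ℝ) else 1) := by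
      rw [hsite]
      ring
    rw [h1]
    refine Finset.sum_le_sum fun y _ => ?_
    by_cases h : f y = 0
    · rw [if_pos h]
      positivity
    · rw [if_neg h]
      exact_mod_cast Nat.one_le_iff_ne_zero.mpr h
  obtain ⟨S, hSd⟩ : ∃ S : ℝ, S = (∑ y ∈ range M, (f y : ℝ)) / (M : ℝ) := ⟨_, rfl⟩
  have hSβ : β ≤ S := by
    rw [hβ, hSd]
    exact div_le_div_of_nonneg_right hS hMr.le
  rw [← hSd]
  have h1δ : 0 < 1 - δ := by linarith
  rcases le_or_gt β δ with hle | hgt
  · have hρ' : ∀ y, ρ y = if f y = 0 then 1 / (1 - β) else 0 := by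
      intro y
      rw [hρ y, if_pos hle]
    have h1β : 0 < 1 - β := by linarith
    refine ⟨fun y => ?_, ?_, ?_⟩
    · rw [hρ' y]
      by_cases h : f y = 0
      · rw [if_pos h]
        exact ⟨by positivity, one_div_le_one_div_of_le h1δ (by linarith)⟩
      · rw [if_neg h]
        exact ⟨le_refl _, by positivity⟩
    · simp only [hρ']
      rw [hsite, hc0β]
      field_simp
      ring
    · simp only [hρ']
      rw [hsf, zero_mul, zero_div]
      positivity
  · have hρ' : ∀ y, ρ y = if f y = 0 then 1 / (1 - δ) else (β - δ) / (β * (1 - δ)) := by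
      intro y
      rw [hρ y, if_neg (not_le.mpr hgt)]
    have hβp : 0 < β := by linarith
    refine ⟨fun y => ?_, ?_, ?_⟩
    · rw [hρ' y]
      by_cases h : f y = 0
      · rw [if_pos h]
        exact ⟨by positivity, le_refl _⟩
      · rw [if_neg h]
        refine ⟨div_nonneg (by linarith) (by positivity), ?_⟩
        rw [div_le_div_iff₀ (by positivity) h1δ]
        nlinarith
    · simp only [hρ']
      rw [hsite, hc0β, hc1β]
      field_simp
      ring
    · simp only [hρ']
      rw [hsf, mul_div_assoc, ← hSd]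
      refine le_trans ?_ (div_le_div_of_nonneg_right (le_max_right 0 (S - δ)) h1δ.le)
      rw [div_mul_eq_mul_div, div_le_div_iff₀ (by positivity) h1δ]
      have h : (β - δ) * S ≤ (S - δ) * β := by nlinarith
      nlinarith

end Pool.Agent.COV.H93
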