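import Pool.Agent.Helper11_COV.Stmt

/-!
Squad COV, module VVD: the operators VO, VV and DD.
-/

set_option autoImplicit false

namespace Pool.Agent.COV.H93

open Finset Classical

/-- Abel summation -/
lemma abel_le (q h : ℕ → ℝ) (hq0 : q 0 ≤ 1) (hqm : ∀ j, q (j + 1) ≤ q j) (hh : ∀ j, 0 ≤ h j)
    (c : ℕ) : q c * h c ≤ h 0 + ∑ j ∈ range c, q j * (h (j + 1) - h j) := by
  induction c with
  | zero =>
    have := mul_le_mul_of_nonneg_right hq0 (hh 0)
    simpa using this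
  | succ c ih =>
    rw [Finset.sum_range_succ]
    have h1 := mul_le_mul_of_nonneg_right (hqm c) (hh (c + 1))
    linarith

lemma abel_mono (q g g' : ℕ → ℝ) (hq0 : q 0 ≤ 1) (hqm : ∀ j, q (j + 1) ≤ q j)
    (hqn : ∀ j, 0 ≤ q j) (hg : ∀ j, g j ≤ g' j) (c : ℕ) :
    g 0 + ∑ j ∈ range c, q j * (g (j + 1) - g j) ≤
      g' 0 + ∑ j ∈ range c, q j * (g' (j + 1) - g' j) := by
  have h := abel_le q (fun j => g' j - g j) hq0 hqm (fun j => sub_nonneg.mpr (hg j)) c
  have h0 : 0 ≤ q c * (g' c - g c) := mul_nonneg (hqn c) (sub_nonneg.mpr (hg c))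
  have h1 : ∑ j ∈ range c, q j * ((g' (j + 1) - g (j + 1)) - (g' j - g j)) =
      ∑ j ∈ range c, q j * (g' (j + 1) - g' j) - ∑ j ∈ range c, q j * (g (j + 1) - g j) := by
    rw [← Finset.sum_sub_distrib]
    refine Finset.sum_congr rfl fun j _ => ?_
    ring
  rw [h1] at h
  linarith

lemma wseq (p : ℕ) (ν : ℝ) (hp : 1 < p) (h0 : 0 ≤ ν) (h1 : ν ≤ p) :
    ν / (p : ℝ) ^ (0 + 1) ≤ 1 ∧ (∀ j : ℕ, ν / (p : ℝ) ^ (j + 1 + 1) ≤ ν / (p : ℝ) ^ (j + 1)) ∧
      ∀ j : ℕ, 0 ≤ ν / (p : ℝ) ^ (j + 1) := by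
  have hp0 : (0 : ℝ) < p := by exact_mod_cast (by omega : 0 < p)
  have hp1 : (1 : ℝ) ≤ p := by exact_mod_cast hp.le
  refine ⟨?_, fun j => ?_, fun j => by positivity⟩
  · rw [zero_add, pow_one, div_le_one hp0]
    exact h1
  · refine div_le_div_of_nonneg_left h0 (by positivity) ?_
    exact pow_le_pow_right₀ hp1 (by omega)

lemma VO_mono (c : ℕ → ℕ) (ν : ℕ → ℝ) (p : ℕ) (F G : (ℕ → ℕ) → ℝ) (v : ℕ → ℕ) (hp : p.Prime)
    (h0 : 0 ≤ ν p) (h1 : ν p ≤ p) (hFG : ∀ v, F v ≤ G v) : VO c ν p F v ≤ VO c ν p G v := by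
  obtain ⟨w0, w1, w2⟩ := wseq p (ν p) hp.one_lt h0 h1
  exact abel_mono (fun j => ν p / (p : ℝ) ^ (j + 1)) (fun j => F (Function.update v p j))
    (fun j => G (Function.update v p j)) w0 w1 w2 (fun j => hFG _) (c p)

lemma VV_mono (c : ℕ → ℕ) (ν : ℕ → ℝ) (n : ℕ) (F G : (ℕ → ℕ) → ℝ)
    (hν : ∀ p, p.Prime → 0 ≤ ν p ∧ ν p ≤ p) (hFG : ∀ v, F v ≤ G v) :
    ∀ v, VV c ν n F v ≤ VV c ν n G v := by
  induction n with
  | zero => exact hFG
  | succ n ih =>
    intro v
    by_cases hn : n.Prime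
    · simp only [VV, if_pos hn]
      exact VO_mono c ν n _ _ v hn (hν n hn).1 (hν n hn).2 ih
    · simp only [VV, if_neg hn]
      exact ih v

lemma tau_zero (v : ℕ → ℕ) : tau 0 v = 1 := by
  simp [tau]

lemma tau_succ_prime (n : ℕ) (hn : n.Prime) (v : ℕ → ℕ) : tau (n + 1) v = (v n + 1) * tau n v := by
  unfold tau
  rw [Finset.range_add_one, Finset.filter_insert, if_pos hn, Finset.prod_insert (by simp)]

lemma tau_succ_not (n : ℕ) (hn : ¬ n.Prime) (v : ℕ → ℕ) : tau (n + 1) v = tau n v := by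
  unfold tau
  rw [Finset.range_add_one, Finset.filter_insert, if_neg hn]

lemma VV_DD (c : ℕ → ℕ) (ν : ℕ → ℝ) (n : ℕ) : ∀ G : ℕ → (ℕ → ℕ) → ℝ,
    (∀ x v p y, p < n → G x (Function.update v p y) = G x v) → ∀ v0,
    VV c ν n (fun v => G (tau n v) v) v0 = DD c ν n (fun x => G x v0) := by
  induction n with
  | zero =>
    intro G _ v0
    simp only [VV, DD, tau_zero]
  | succ n ih =>
    intro G hG v0
    by_cases hn : n.Prime
    · have hG' : ∀ (x : ℕ) (v : ℕ → ℕ) (p y : ℕ), p < n →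
          (fun (x : ℕ) (v : ℕ → ℕ) => G ((v n + 1) * x) v) x (Function.update v p y) =
            (fun (x : ℕ) (v : ℕ → ℕ) => G ((v n + 1) * x) v) x v := by
        intro x v p y hp
        simp only
        rw [Function.update_of_ne (by omega), hG _ _ _ _ (by omega)]
      have h := ih (fun (x : ℕ) (v : ℕ → ℕ) => G ((v n + 1) * x) v) hG'
      have h1 : ∀ j : ℕ, VV c ν n (fun v => G (tau (n + 1) v) v) (Function.update v0 n j) =
          DD c ν n (fun x => G ((j + 1) * x) v0) := by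
        intro j
        have h2 := h (Function.update v0 n j)
        simp only [Function.update_self] at h2
        simp only [tau_succ_prime n hn]
        rw [h2]
        congr 1
        funext x
        rw [hG _ _ _ _ (by omega)]
      simp only [VV, DD, if_pos hn, VO]
      rw [h1]
      simp only [h1, zero_add, one_mul, add_assoc, one_add_one_eq_two]
    · simp only [VV, DD, if_neg hn, tau_succ_not n hn]
      exact ih G (fun x v p y hp => hG x v p y (by omega)) v0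

theorem vvd : VvdStmt :=
  ⟨fun c ν p F G v hp h0 h1 hFG => VO_mono c ν p F G v hp h0 h1 hFG,
    fun c ν n F G hν hFG => VV_mono c ν n F G hν hFG,
    fun c ν n f v => VV_DD c ν n (fun x _ => f x) (fun _ _ _ _ _ => rfl) v⟩

end Pool.Agent.COV.H93
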