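import Pool.Agent.COV.StmtsB

set_option autoImplicit false

/-!
# Squad COV (MP_160b6c_nt), block B, row CLS: the classes
-/

namespace Pool.Agent.COV.H93

open Polynomial Pool.Agent.KDT.Z

section two

variable {k U : Type} [Field k] [Field U] [Algebra k U]

/-- a root in `U` of a nonzero polynomial over `k` is in `k` -/
theorem kroot [IsAlgClosed k] {p : k[X]} (hp : p ≠ 0) {u : U} (h : aeval u p = 0) :
    u ∈ (algebraMap k U).range := by
  have halg : IsAlgebraic k u := ⟨p, hp, h⟩
  have hint : IsIntegral k u := halg.isIntegral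
  exact minpoly.mem_range_of_degree_eq_one k u
    (IsAlgClosed.degree_eq_one_of_irreducible k (minpoly.irreducible hint))

theorem gev {f : k[X]} {g : U[X]} (hg : g = f.map (algebraMap k U)) (u : U) :
    g.eval u = aeval u f := by
  rw [hg, eval_map_algebraMap]

/-- a point with `a` in `k` has `b` in `k` -/
theorem bk {f : k[X]} {g : U[X]} [IsAlgClosed k] (hg : g = f.map (algebraMap k U)) (z : Pt g)
    (ha : z.a ∈ (algebraMap k U).range) : z.b ∈ (algebraMap k U).range := by
  obtain ⟨a, ha⟩ := ha
  have h1 : z.b ^ 2 = algebraMap k U (f.eval a) := by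
    rw [z.on, gev hg, ← ha, aeval_algebraMap_apply_eq_algebraMap_eval]
  have hp : (X ^ 2 - C (f.eval a) : k[X]) ≠ 0 := by
    apply X_pow_sub_C_ne_zero (by norm_num)
  apply kroot hp
  rw [map_sub, map_pow, aeval_X, aeval_C, h1, sub_self]

/-- two points with the same `a` -/
theorem same {g : U[X]} {z w : Pt g} (h : z.a = w.a) : z = w ∨ z = w.neg := by
  have h1 : z.b ^ 2 = w.b ^ 2 := by rw [z.on, w.on, h]
  rcases sq_eq_sq_iff_eq_or_eq_neg.1 h1 with h2 | h2
  · left
    cases z; cases w
    simp only at h h2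
    subst h; subst h2; rfl
  · right
    cases z; cases w
    simp only [Pt.neg] at h h2 ⊢
    subst h; subst h2; rfl

theorem map_totalDegree_le (Φ : MvPolynomial (Fin 2) k) :
    (MvPolynomial.map (algebraMap k U) Φ).totalDegree ≤ Φ.totalDegree := by
  exact Finset.sup_mono (MvPolynomial.support_map_subset _ _)

/-- the polynomial `Φ(a + X, a X)` -/
noncomputable def NN (Φ : MvPolynomial (Fin 2) k) (a : U) : U[X] :=
  MvPolynomial.aeval (![C a + X, C a * X] : Fin 2 → U[X]) Φ

theorem NN_eval (Φ : MvPolynomial (Fin 2) k) (a x : U) :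
    (NN Φ a).eval x = MvPolynomial.aeval ![a + x, a * x] Φ := by
  have h : ∀ P : MvPolynomial (Fin 2) k,
      (MvPolynomial.aeval (![C a + X, C a * X] : Fin 2 → U[X]) P).eval x =
      MvPolynomial.aeval ![a + x, a * x] P := by
    intro P
    induction P using MvPolynomial.induction_on with
    | C r =>
      rw [MvPolynomial.aeval_C, MvPolynomial.aeval_C]
      rw [Polynomial.algebraMap_apply, eval_C]
    | add p q hp hq => rw [map_add, map_add, eval_add, hp, hq]
    | mul_X p i hp =>
      rw [map_mul, map_mul, eval_mul, hp, MvPolynomial.aeval_X, MvPolynomial.aeval_X]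
      congr 1
      fin_cases i <;> simp
  exact h Φ

theorem NN_deg (Φ : MvPolynomial (Fin 2) k) (a : U) : (NN Φ a).natDegree ≤ Φ.totalDegree := by
  have h : NN Φ a = MvPolynomial.aeval (![C a + X, C a * X] : Fin 2 → U[X])
      (MvPolynomial.map (algebraMap k U) Φ) := by
    unfold NN
    rw [MvPolynomial.aeval_map_algebraMap]
  rw [h]
  have h1 := MvPolynomial.aeval_natDegree_le (n := 1) (MvPolynomial.map (algebraMap k U) Φ)
    (map_totalDegree_le Φ) (![C a + X, C a * X] : Fin 2 → U[X]) (by
      intro i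
      fin_cases i
      · show (C a + X : U[X]).natDegree ≤ 1
        compute_degree
      · show (C a * X : U[X]).natDegree ≤ 1
        compute_degree)
  rwa [mul_one] at h1

theorem NN_ne [IsAlgClosed k] (Φ : MvPolynomial (Fin 2) k) (hΦ : Φ ≠ 0) (a : U)
    (ha : a ∉ (algebraMap k U).range) : NN Φ a ≠ 0 := by
  intro h0
  apply hΦ
  -- for every `x ∈ k` the polynomial `Φ(Y + x, x Y)` vanishes
  have h1 : ∀ x y : k, MvPolynomial.eval ![y + x, x * y] Φ = 0 := by
    intro x y
    have h2 : NN Φ (k := k) (U := k) x = 0 := by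
      by_contra hne
      apply ha
      apply kroot hne
      have h3 : ∀ P : MvPolynomial (Fin 2) k,
          aeval a (NN P (k := k) (U := k) x) = (NN P a).eval (algebraMap k U x) := by
        intro P
        rw [NN_eval]
        unfold NN
        induction P using MvPolynomial.induction_on with
        | C r =>
          rw [MvPolynomial.aeval_C, MvPolynomial.aeval_C, Polynomial.algebraMap_apply]
          simp
        | add p q hp hq => rw [map_add, map_add, map_add, hp, hq]
        | mul_X p i hp =>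
          rw [map_mul, map_mul, map_mul, hp, MvPolynomial.aeval_X, MvPolynomial.aeval_X]
          congr 1
          fin_cases i
          · show aeval a (C x + X : k[X]) = a + algebraMap k U x
            rw [map_add, aeval_C, aeval_X, add_comm]
          · show aeval a (C x * X : k[X]) = a * algebraMap k U x
            rw [map_mul, aeval_C, aeval_X, mul_comm]
      rw [h3, h0, eval_zero]
    have h4 := NN_eval (k := k) (U := k) Φ x y
    rw [h2, eval_zero] at h4
    rw [add_comm y x]
    rw [← MvPolynomial.aeval_eq_eval]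
    exact h4.symm
  have _ : Infinite k := IsAlgClosed.instInfinite
  apply MvPolynomial.funext
  intro v
  rw [map_zero]
  obtain ⟨x, hx⟩ := IsAlgClosed.exists_root (X ^ 2 - C (v 0) * X + C (v 1) : k[X]) (by
    have : (X ^ 2 - C (v 0) * X + C (v 1) : k[X]).degree = 2 := by
      compute_degree!
    rw [this]
    norm_num)
  have hx' : x ^ 2 - v 0 * x + v 1 = 0 := by
    have := hx
    rw [IsRoot.def] at this
    simpa using this
  have h5 := h1 x (v 0 - x)
  have h6 : (![v 0 - x + x, x * (v 0 - x)] : Fin 2 → k) = v := by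
    funext i
    fin_cases i
    · simp
    · show x * (v 0 - x) = v 1
      linear_combination -hx'
  rw [h6] at h5
  exact h5

end two

theorem cls (hPRS : PrsStmt) : ClsStmt := by
  intro k U _ _ _ f g hE J _ th cl act Jk hJ H d s n hL
  have _ := hE.kc
  have _ := hE.oc
  have _ := hE.ch
  have _ : CharZero U := charZero_of_injective_algebraMap (algebraMap k U).injective
  have hneg : ∀ z : Pt g, z.neg.neg = z := by
    intro z
    cases z
    simp [Pt.neg]
  have hf0 : f ≠ 0 := hE.mo.ne_zero
  -- d and om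
  have omneg : ∀ z : Pt g, om d s z.neg = - om d s z := by
    intro z
    simp [om, Pt.neg, div_neg]
  have om_k : ∀ z : Pt g, z.a ∈ (algebraMap k U).range → om d s z = 0 := by
    intro z hz
    unfold om
    rw [(hL.dg.1 z.a).2 hz, mul_zero, zero_div]
  have om_nk : ∀ z : Pt g, z.a ∉ (algebraMap k U).range → om d s z ≠ 0 := by
    intro z hz h0
    unfold om at h0
    rcases div_eq_zero_iff.1 h0 with h1 | h1
    · rcases mul_eq_zero.1 h1 with h2 | h2
      · exact hz (kroot hL.s0 h2)
      · exact hz ((hL.dg.1 z.a).1 h2)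
    · apply hz
      apply kroot hf0
      rw [← gev hE.gm, ← z.on, h1]
      norm_num
  -- k-points
  have thk : ∀ z : Pt g, z.a ∈ (algebraMap k U).range → th z ∈ Jk := by
    intro z hz
    obtain ⟨b, hb⟩ := bk hE.gm z hz
    obtain ⟨a, ha⟩ := hz
    exact (hJ.mem_k _).2 (Or.inr (Or.inl ⟨z, ⟨a, b, ha.symm, hb.symm⟩, rfl⟩))
  -- the base point
  obtain ⟨ζ, ζ1, hζ, hne, hζ1⟩ : ∃ ζ ζ1 : Pt g, ζ.a ∉ (algebraMap k U).range ∧ ζ1 ≠ ζ ∧
      th ζ - th ζ1 ∈ H := by
    obtain ⟨z, w, hzw, hzw'⟩ := hL.nc
    have h1 : z ≠ w.neg := by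
      intro h
      apply hzw'
      rw [h, hJ.th_neg, neg_add_cancel]
      exact Jk.zero_mem
    by_cases hz : z.a ∈ (algebraMap k U).range
    · have hw : w.a ∉ (algebraMap k U).range := by
        intro hw
        exact hzw' (Jk.add_mem (thk z hz) (thk w hw))
      refine ⟨w.neg, z, hw, h1, ?_⟩
      rw [hJ.th_neg]
      have := H.neg_mem hzw
      have e : -(th z + th w) = -th w - th z := by abel
      rwa [e] at this
    · refine ⟨z, w.neg, hz, Ne.symm h1, ?_⟩
      rw [hJ.th_neg, sub_neg_eq_add]
      exact hzw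
  set S : Set (Pt g) := {z | th ζ - th z ∈ H} with hS
  have memS : ∀ z, z ∈ S ↔ th ζ - th z ∈ H := fun z => Iff.rfl
  have hζS : ζ ∈ S := by rw [memS, sub_self]; exact H.zero_mem
  have omS : ∀ z ∈ S, om d s z = om d s ζ := by
    intro z hz
    have h1 : th ζ + th z.neg ∈ H := by
      rw [hJ.th_neg, ← sub_eq_add_neg]
      exact hz
    have h2 := hL.h4 ζ z.neg h1
    rw [omneg] at h2
    exact (sub_eq_zero.1 (by rw [sub_eq_add_neg]; exact h2)).symm
  have nkS : ∀ z ∈ S, z.a ∉ (algebraMap k U).range := by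
    intro z hz hk
    apply om_nk ζ hζ
    rw [← omS z hz]
    exact om_k z hk
  have injS : ∀ z ∈ S, ∀ w ∈ S, z.a = w.a → z = w := by
    intro z hz w hw h
    rcases same h with h1 | h1
    · exact h1
    · exfalso
      have h2 : om d s z = - om d s w := by rw [h1, omneg]
      rw [omS z hz, omS w hw] at h2
      apply om_nk ζ hζ
      have h3 : (2 : U) * om d s ζ = 0 := by linear_combination h2
      rcases mul_eq_zero.1 h3 with h4 | h4
      · exact absurd h4 two_ne_zero
      · exact h4
  -- the roots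
  obtain ⟨Φ, hΦ, hΦd, hΦz⟩ := hL.h2
  have hN : NN Φ ζ.a ≠ 0 := NN_ne Φ hΦ ζ.a hζ
  have rootS : ∀ z ∈ S, z ≠ ζ → (NN Φ ζ.a).eval z.a = 0 := by
    intro z hz hzζ
    have h1 : th ζ + th z.neg ∈ H := by
      rw [hJ.th_neg, ← sub_eq_add_neg]
      exact hz
    have h2 : th ζ + th z.neg ≠ 0 := by
      rw [hJ.th_neg, ← sub_eq_add_neg]
      intro h
      exact hzζ (hJ.th_inj _ _ (sub_eq_zero.1 h)).symm
    have h3 : th ζ + th z.neg ∉ Jk := by
      intro h
      obtain ⟨q, hq, hP, hc⟩ := (hPRS U g J th cl hJ.toJG).2 ζ z.neg h2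
      rcases (hJ.mem_k _).1 h with h4 | ⟨z0, -, h4⟩ | ⟨t, -, h5, h4⟩
      · exact h2 h4
      · rw [← hc] at h4
        exact hJ.cl_th q z0 hq h4
      · rw [← hc] at h4
        have h6 := hJ.cl_inj q (emb U t) hq h5 h4
        apply hζ
        have h7 : pA q = (pA t).map (algebraMap k U) := by
          rw [h6]
          simp [pA, emb]
        have h8 : (pA q).eval ζ.a = 0 := by
          rw [hP.1]
          simp
        apply kroot (p := pA t) (by
          have hm : (pA t).Monic := by
            unfold pA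
            monicity!
          exact hm.ne_zero)
        rw [h7, eval_map_algebraMap] at h8
        exact h8
    have h4 := hΦz ζ z.neg h1 h3
    rw [NN_eval]
    exact h4
  classical
  have finS : S.Finite := by
    have h1 : (S \ {ζ}).Finite := by
      apply Set.Finite.of_finite_image (f := fun z : Pt g => z.a)
      · apply ((NN Φ ζ.a).roots.toFinset.finite_toSet).subset
        rintro x ⟨z, hz, rfl⟩
        rw [Finset.mem_coe, Multiset.mem_toFinset, mem_roots hN]
        exact rootS z hz.1 hz.2
      · intro z hz w hw h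
        exact injS z hz.1 w hw.1 h
    exact (h1.union (Set.finite_singleton ζ)).subset (by
      intro z hz
      by_cases h : z = ζ
      · right; exact h
      · left; exact ⟨hz, h⟩)
  set T : Finset (Pt g) := finS.toFinset with hT
  have memT : ∀ z, z ∈ T ↔ z ∈ S := fun z => by rw [hT, Set.Finite.mem_toFinset]
  have hcard : T.card ≤ n + 1 := by
    have h1 : (T.erase ζ).card ≤ n := by
      have h2 : ((T.erase ζ).image (fun z : Pt g => z.a)).card = (T.erase ζ).card := by
        apply Finset.card_image_of_injOn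
        intro z hz w hw h
        have hz' := Finset.mem_erase.1 (Finset.mem_coe.1 hz)
        have hw' := Finset.mem_erase.1 (Finset.mem_coe.1 hw)
        exact injS z ((memT z).1 hz'.2) w ((memT w).1 hw'.2) h
      have h3 : (T.erase ζ).image (fun z : Pt g => z.a) ⊆ (NN Φ ζ.a).roots.toFinset := by
        intro x hx
        obtain ⟨z, hz, rfl⟩ := Finset.mem_image.1 hx
        have hz' := Finset.mem_erase.1 hz
        rw [Multiset.mem_toFinset, mem_roots hN]
        exact rootS z ((memT z).1 hz'.2) hz'.1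
      calc (T.erase ζ).card = ((T.erase ζ).image (fun z : Pt g => z.a)).card := h2.symm
        _ ≤ (NN Φ ζ.a).roots.toFinset.card := Finset.card_le_card h3
        _ ≤ Multiset.card (NN Φ ζ.a).roots := Multiset.toFinset_card_le _
        _ ≤ (NN Φ ζ.a).natDegree := card_roots' _
        _ ≤ Φ.totalDegree := NN_deg Φ ζ.a
        _ ≤ n := hΦd
    have h4 := Finset.card_le_card_of_injOn (s := T) (t := insert ζ (T.erase ζ)) id (by
      intro z hz
      by_cases h : z = ζ
      · simp [h]
      · have hz' : z ∈ T := hz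
        simp [h, hz']) (fun _ _ _ _ h => h)
    have h5 := Finset.card_insert_le ζ (T.erase ζ)
    omega
  have h2card : 2 ≤ T.card := by
    have h1 : ({ζ1, ζ} : Finset (Pt g)) ⊆ T := by
      intro x hx
      rcases Finset.mem_insert.1 hx with rfl | hx
      · exact (memT _).2 hζ1
      · rw [Finset.mem_singleton.1 hx]
        exact (memT _).2 hζS
    have h2 := Finset.card_le_card h1
    rwa [Finset.card_pair hne] at h2
  let e := T.equivFin
  refine ⟨T.card, fun i => (e.symm i).1, h2card, hcard, ?_, ?_, ?_, ?_⟩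
  · intro i j hij
    have h1 := injS _ ((memT _).1 (e.symm i).2) _ ((memT _).1 (e.symm j).2) hij
    exact e.symm.injective (Subtype.ext h1)
  · intro i
    exact nkS _ ((memT _).1 (e.symm i).2)
  · intro i j
    rw [omS _ ((memT _).1 (e.symm i).2), omS _ ((memT _).1 (e.symm j).2)]
  · intro σ i i' hσ
    have hall : ∀ z, z ∈ S → ∃ l, (e.symm l).1 = z := by
      intro z hz
      refine ⟨e ⟨z, (memT z).2 hz⟩, ?_⟩
      rw [Equiv.symm_apply_apply]
    have hσpt : ∀ z : Pt g, (σ z.b) ^ 2 = g.eval (σ z.a) := by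
      intro z
      rw [gev hE.gm, ← map_pow, z.on, gev hE.gm]
      rw [aeval_algHom_apply σ z.a f]
    -- the point sigma z_i
    have hPH : ∀ l, th (⟨σ (e.symm i).1.a, σ (e.symm i).1.b, hσpt _⟩ : Pt g) -
        th (⟨σ (e.symm l).1.a, σ (e.symm l).1.b, hσpt _⟩ : Pt g) ∈ H := by
      intro l
      have h1 : th (e.symm i).1 - th (e.symm l).1 ∈ H := by
        have a1 : th ζ - th (e.symm i).1 ∈ H := (memT _).1 (e.symm i).2
        have a2 : th ζ - th (e.symm l).1 ∈ H := (memT _).1 (e.symm l).2
        have a3 := H.sub_mem a2 a1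
        have a4 : th ζ - th (e.symm l).1 - (th ζ - th (e.symm i).1) =
            th (e.symm i).1 - th (e.symm l).1 := by abel
        rwa [a4] at a3
      have h2 := hL.st σ _ h1
      rw [map_sub, hJ.act_th σ (e.symm i).1
        (⟨σ (e.symm i).1.a, σ (e.symm i).1.b, hσpt _⟩ : Pt g) rfl rfl,
        hJ.act_th σ (e.symm l).1
        (⟨σ (e.symm l).1.a, σ (e.symm l).1.b, hσpt _⟩ : Pt g) rfl rfl] at h2
      exact h2
    have hi' : th ζ - th (e.symm i').1 ∈ H := (memT _).1 (e.symm i').2
    rcases same (z := (⟨σ (e.symm i).1.a, σ (e.symm i).1.b, hσpt _⟩ : Pt g))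
      (w := (e.symm i').1) hσ with h1 | h1
    · refine ⟨1, Or.inl rfl, fun l => ?_⟩
      have h2 := hPH l
      rw [h1] at h2
      have h3 := H.add_mem hi' h2
      rw [sub_add_sub_cancel] at h3
      obtain ⟨l', hl'⟩ := hall (⟨σ (e.symm l).1.a, σ (e.symm l).1.b, hσpt _⟩ : Pt g) h3
      refine ⟨l', ?_, ?_⟩
      · show σ (e.symm l).1.a = (e.symm l').1.a
        rw [hl']
      · show σ (e.symm l).1.b = 1 * (e.symm l').1.b
        rw [hl', one_mul]
    · refine ⟨-1, Or.inr rfl, fun l => ?_⟩
      have h2 := hPH l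
      rw [h1, hJ.th_neg] at h2
      have h3 : th ζ - th (⟨σ (e.symm l).1.a, σ (e.symm l).1.b, hσpt _⟩ : Pt g).neg ∈ H := by
        rw [hJ.th_neg]
        have h4 := H.sub_mem hi' h2
        have h5 : th ζ - th (e.symm i').1 - (-th (e.symm i').1 -
            th (⟨σ (e.symm l).1.a, σ (e.symm l).1.b, hσpt _⟩ : Pt g)) =
            th ζ - -th (⟨σ (e.symm l).1.a, σ (e.symm l).1.b, hσpt _⟩ : Pt g) := by abel
        rwa [h5] at h4
      obtain ⟨l', hl'⟩ := hall _ h3
      refine ⟨l', ?_, ?_⟩
      · show σ (e.symm l).1.a = (e.symm l').1.a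
        rw [hl']
        rfl
      · show σ (e.symm l).1.b = -1 * (e.symm l').1.b
        rw [hl']
        simp [Pt.neg]

end Pool.Agent.COV.H93
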